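import Mathlib
import Pool.Agent.X165.FP4

/-!
# The functional volume product is not monotone along the Fokker-Planck flow

A function `f` on the real line (the indicator of two intervals) such that `f°` has barycenter `0`,
while the functional volume product of the Fokker-Planck evolution `f_t` is at least `34` at the time
`t = log (25/24)` and at most `21` at the later time `t = log 2`.
-/

set_option autoImplicit false

open MeasureTheory Filter Set
open scoped ENNReal Topology

namespace Pool.Agent.Results.MP_31abd3_an.NotMonotone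

/-- the polar function `f° (y) = inf_{f x > 0} e^{-x y} / f x` -/
noncomputable def polar (f : ℝ → ℝ) (y : ℝ) : ℝ :=
  ⨅ x : {x : ℝ // 0 < f x}, Real.exp (-(x * y)) / f x

/-- the functional volume product `∫ f ∫ f°` -/
noncomputable def volProd (f : ℝ → ℝ) : ℝ≥0∞ :=
  (∫⁻ x, ENNReal.ofReal (f x)) * ∫⁻ y, ENNReal.ofReal (polar f y)

/-- the Fokker-Planck evolution of `f` (Mehler's formula): `f_0 = f`, and for `t > 0` `f_t` is the
density of `e^{-t} X + √(1 - e^{-2t}) Z` for `X` of density `f` and `Z` standard Gaussian -/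
noncomputable def flow (f : ℝ → ℝ) (t x : ℝ) : ℝ :=
  if t = 0 then f x else
    ∫ y, f y * ((√(2 * Real.pi * (1 - Real.exp (-2 * t))))⁻¹ *
      Real.exp (-(x - Real.exp (-t) * y) ^ 2 / (2 * (1 - Real.exp (-2 * t)))))

open Pool.Agent.X165.FP in
lemma flow_eq {t : ℝ} (ht : 0 < t) :
    flow f t = u (Real.exp (-t)) (1 - Real.exp (-2 * t)) := by
  funext x
  unfold flow
  rw [if_neg ht.ne']
  rfl

/-- **The functional volume product is not monotone along the Fokker-Planck flow**, even for a
function on the line whose polar has barycenter `0`. -/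
theorem result : ∃ f : ℝ → ℝ,
    -- `f` is measurable and nonnegative with finite positive integral
    Measurable f ∧ (∀ x, 0 ≤ f x) ∧
    0 < ∫⁻ x, ENNReal.ofReal (f x) ∧ ∫⁻ x, ENNReal.ofReal (f x) < ⊤ ∧
    -- `f°` has finite positive integral, finite first moment and barycenter `0`
    Integrable (polar f) ∧ 0 < ∫ y, polar f y ∧
    Integrable (fun y => y * polar f y) ∧ ∫ y, y * polar f y = 0 ∧
    -- `f_t` is a classical solution of `∂_t f_t = f_t'' + (x f_t)'` for `t > 0` ...
    (∃ g h : ℝ → ℝ → ℝ, ∀ t > 0, ∀ x,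
      HasDerivAt (flow f t) (g t x) x ∧ HasDerivAt (g t) (h t x) x ∧
      HasDerivAt (fun s => flow f s x) (h t x + (flow f t x + x * g t x)) t) ∧
    -- ... with `f_0 = f`, the initial value being attained almost everywhere and in mass
    flow f 0 = f ∧
    (∀ᵐ x, Tendsto (fun t => flow f t x) (𝓝[>] 0) (𝓝 (f x))) ∧
    (∀ t > 0, ∀ x, 0 < flow f t x) ∧
    (∀ t > 0, ∫⁻ x, ENNReal.ofReal (flow f t x) = ∫⁻ x, ENNReal.ofReal (f x)) ∧
    -- the volume product decreases between the two times
    34 ≤ volProd (flow f (Real.log (25 / 24))) ∧ volProd (flow f (Real.log 2)) ≤ 21 := by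
  have hfm : Measurable Pool.Agent.X165.FP.f := by
    unfold Pool.Agent.X165.FP.f
    exact measurable_const.indicator (Pool.Agent.X165.FP.ms1.union Pool.Agent.X165.FP.ms2)
  have hpol : polar Pool.Agent.X165.FP.f = fun y => Real.exp (-|y|) := by
    funext y
    exact Pool.Agent.X165.FP.polar_f y
  have hmass : ∫⁻ x, ENNReal.ofReal (Pool.Agent.X165.FP.f x) =
      ENNReal.ofReal (Pool.Agent.X165.FP.w + 1 / 4) := by
    have : (fun x => ENNReal.ofReal (Pool.Agent.X165.FP.f x)) =
        (Pool.Agent.X165.FP.S1 ∪ Pool.Agent.X165.FP.S2).indicator fun _ => (1 : ℝ≥0∞) := by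
      funext x
      unfold Pool.Agent.X165.FP.f
      by_cases hx : x ∈ Pool.Agent.X165.FP.S1 ∪ Pool.Agent.X165.FP.S2
      · rw [indicator_of_mem hx, indicator_of_mem hx, ENNReal.ofReal_one]
      · rw [indicator_of_notMem hx, indicator_of_notMem hx, ENNReal.ofReal_zero]
    rw [this, lintegral_indicator (Pool.Agent.X165.FP.ms1.union Pool.Agent.X165.FP.ms2),
      setLIntegral_one, Pool.Agent.X165.FP.volS]
  have hw := Pool.Agent.X165.FP.w_pos
  refine ⟨Pool.Agent.X165.FP.f, hfm, ?_, ?_, ?_, ?_, ?_, ?_, ?_, ?_, ?_, ?_, ?_, ?_, ?_, ?_⟩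
  · intro x
    unfold Pool.Agent.X165.FP.f
    exact indicator_nonneg (fun _ _ => zero_le_one) x
  · rw [hmass, ENNReal.ofReal_pos]; linarith
  · rw [hmass]; exact ENNReal.ofReal_lt_top
  · rw [hpol]; exact Pool.Agent.X165.FP.int_exp
  · rw [hpol]
    refine (integral_pos_iff_support_of_nonneg (fun y => (Real.exp_pos _).le)
      Pool.Agent.X165.FP.int_exp).2 ?_
    have : Function.support (fun y : ℝ => Real.exp (-|y|)) = univ := by
      ext y; simp [(Real.exp_pos (-|y|)).ne']
    rw [this]
    simp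
  · rw [hpol]; exact Pool.Agent.X165.FP.int_yexp
  · rw [hpol]; exact Pool.Agent.X165.FP.bary
  · refine ⟨fun t x => Pool.Agent.X165.FP.Tx (-1) t x -
        Pool.Agent.X165.FP.Tx (-1 + Pool.Agent.X165.FP.w) t x +
        (Pool.Agent.X165.FP.Tx (3 / 4) t x - Pool.Agent.X165.FP.Tx 1 t x),
      fun t x => Pool.Agent.X165.FP.Txx (-1) t x -
        Pool.Agent.X165.FP.Txx (-1 + Pool.Agent.X165.FP.w) t x +
        (Pool.Agent.X165.FP.Txx (3 / 4) t x - Pool.Agent.X165.FP.Txx 1 t x), ?_⟩
    intro t ht x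
    have e : flow Pool.Agent.X165.FP.f t = fun x => Pool.Agent.X165.FP.T (-1) t x -
        Pool.Agent.X165.FP.T (-1 + Pool.Agent.X165.FP.w) t x +
        (Pool.Agent.X165.FP.T (3 / 4) t x - Pool.Agent.X165.FP.T 1 t x) := by
      rw [flow_eq ht]
      funext x
      exact Pool.Agent.X165.FP.u_closed ht x
    refine ⟨?_, ?_, ?_⟩
    · rw [e]
      exact ((Pool.Agent.X165.FP.T_x _ _ x).sub (Pool.Agent.X165.FP.T_x _ _ x)).add
        ((Pool.Agent.X165.FP.T_x _ _ x).sub (Pool.Agent.X165.FP.T_x _ _ x))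
    · exact ((Pool.Agent.X165.FP.T_xx ht _ x).sub (Pool.Agent.X165.FP.T_xx ht _ x)).add
        ((Pool.Agent.X165.FP.T_xx ht _ x).sub (Pool.Agent.X165.FP.T_xx ht _ x))
    · have h := ((Pool.Agent.X165.FP.T_t ht (-1) x).sub
        (Pool.Agent.X165.FP.T_t ht (-1 + Pool.Agent.X165.FP.w) x)).add
        ((Pool.Agent.X165.FP.T_t ht (3 / 4) x).sub (Pool.Agent.X165.FP.T_t ht 1 x))
      have h2 := h.congr_of_eventuallyEq (f₁ := fun s => flow Pool.Agent.X165.FP.f s x) (by
        filter_upwards [lt_mem_nhds ht] with s hs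
        rw [flow_eq hs]
        exact Pool.Agent.X165.FP.u_closed hs x)
      refine h2.congr_deriv ?_
      rw [e]
      ring
  · funext x
    unfold flow
    rw [if_pos rfl]
  · have hnull : ∀ a : ℝ, ∀ᵐ x : ℝ, x ≠ a := fun a => by
      rw [ae_iff]
      simp
    filter_upwards [hnull (-1), hnull (-1 + Pool.Agent.X165.FP.w), hnull (3 / 4), hnull 1]
      with x h1 h2 h3 h4
    refine (Pool.Agent.X165.FP.u_lim h1 h2 h3 h4).congr' ?_
    filter_upwards [self_mem_nhdsWithin] with t ht
    rw [flow_eq ht]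
  · intro t ht x
    rw [flow_eq ht]
    exact Pool.Agent.X165.FP.u_pos (Real.exp_pos _) (Pool.Agent.X165.FP.sig_pos ht) x
  · intro t ht
    rw [flow_eq ht, hmass]
    exact Pool.Agent.X165.FP.mass (Pool.Agent.X165.FP.sig_pos ht)
  · have ht : 0 < Real.log (25 / 24) := Real.log_pos (by norm_num)
    have e1 : Real.exp (-Real.log (25 / 24)) = 24 / 25 := by
      rw [Real.exp_neg, Real.exp_log (by norm_num)]; norm_num
    have e2 : 1 - Real.exp (-2 * Real.log (25 / 24)) = 49 / 625 := by
      have : -2 * Real.log (25 / 24) = -Real.log (25 / 24) + -Real.log (25 / 24) := by ring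
      rw [this, Real.exp_add, e1]; norm_num
    rw [flow_eq ht, e1, e2]
    have h := Pool.Agent.X165.FP.early
    have h34 : ENNReal.ofReal 34 = 34 := by norm_num
    rw [h34] at h
    exact h
  · have ht : 0 < Real.log 2 := Real.log_pos (by norm_num)
    have e1 : Real.exp (-Real.log 2) = 1 / 2 := by
      rw [Real.exp_neg, Real.exp_log (by norm_num)]; norm_num
    have e2 : 1 - Real.exp (-2 * Real.log 2) = 3 / 4 := by
      have : -2 * Real.log 2 = -Real.log 2 + -Real.log 2 := by ring
      rw [this, Real.exp_add, e1]; norm_num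
    rw [flow_eq ht, e1, e2]
    have h := Pool.Agent.X165.FP.late
    have h21 : ENNReal.ofReal 21 = 21 := by norm_num
    rw [h21] at h
    exact h

end Pool.Agent.Results.MP_31abd3_an.NotMonotone
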